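import Mathlib

set_option autoImplicit false

open Complex Metric Set Filter Topology MeasureTheory

namespace Pool.Agent.H412R2.MA

/-- A conformal map of the unit disc whose circle images have a real part with angular derivative at most
`2/π` in absolute value (the Legendre chi map `(8/π²) ∑_{k odd} ζ^k/k²`). -/
structure QMap where
  Q : ℂ → ℂ
  Q' : ℂ → ℂ
  der : ∀ ζ ∈ ball (0:ℂ) 1, HasDerivAt Q (Q' ζ) ζ
  zero : Q 0 = 0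
  re_pos : ∀ ζ ∈ ball (0:ℂ) 1, 0 < (Q' ζ).re
  im_pos : ∀ ζ ∈ ball (0:ℂ) 1, 0 < ζ.im → 0 < (ζ * Q' ζ).im
  im_le : ∀ ζ ∈ ball (0:ℂ) 1, (ζ * Q' ζ).im ≤ 2 / Real.pi
  conj' : ∀ ζ ∈ ball (0:ℂ) 1, Q (starRingEnd ℂ ζ) = starRingEnd ℂ (Q ζ)
  odd : ∀ ζ ∈ ball (0:ℂ) 1, Q (-ζ) = -Q ζ
  lim : Tendsto (fun r : ℝ => (Q r).re) (𝓝[<] 1) (𝓝 1)

end Pool.Agent.H412R2.MA
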