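import Pool.Agent.H412R2.MA.QDef

set_option autoImplicit false

open Complex Metric Set Filter Topology MeasureTheory

namespace Pool.Agent.H412R2.MA

noncomputable def uf (ζ : ℂ) : ℂ := (1 + ζ) / (1 - ζ)

noncomputable def Lf (ζ : ℂ) : ℂ := Complex.log (uf ζ)

lemma one_sub_ne {ζ : ℂ} (h : ζ ∈ ball (0:ℂ) 1) : (1 - ζ) ≠ 0 := by
  intro h0
  have : ζ = 1 := by linear_combination -h0
  subst this
  simp at h

lemma normSq_lt {ζ : ℂ} (h : ζ ∈ ball (0:ℂ) 1) : ζ.re ^ 2 + ζ.im ^ 2 < 1 := by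
  have h1 : ‖ζ‖ < 1 := by simpa using h
  have h2 : ‖ζ‖ ^ 2 = ζ.re ^ 2 + ζ.im ^ 2 := by
    rw [Complex.sq_norm, Complex.normSq_apply]; ring
  rw [← h2]
  nlinarith [norm_nonneg ζ]

lemma uf_re {ζ : ℂ} (h : ζ ∈ ball (0:ℂ) 1) :
    (uf ζ).re = (1 - (ζ.re ^ 2 + ζ.im ^ 2)) / Complex.normSq (1 - ζ) := by
  unfold uf
  rw [Complex.div_re]
  simp
  ring

lemma uf_im {ζ : ℂ} (h : ζ ∈ ball (0:ℂ) 1) :
    (uf ζ).im = 2 * ζ.im / Complex.normSq (1 - ζ) := by
  unfold uf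
  rw [Complex.div_im]
  simp
  ring

lemma nsq_pos {ζ : ℂ} (h : ζ ∈ ball (0:ℂ) 1) : 0 < Complex.normSq (1 - ζ) :=
  Complex.normSq_pos.2 (one_sub_ne h)

lemma uf_re_pos {ζ : ℂ} (h : ζ ∈ ball (0:ℂ) 1) : 0 < (uf ζ).re := by
  rw [uf_re h]
  exact div_pos (by linarith [normSq_lt h]) (nsq_pos h)

lemma uf_slit {ζ : ℂ} (h : ζ ∈ ball (0:ℂ) 1) : uf ζ ∈ slitPlane := Or.inl (uf_re_pos h)

lemma hasDerivAt_Lf {ζ : ℂ} (h : ζ ∈ ball (0:ℂ) 1) :
    HasDerivAt Lf (2 / ((1 + ζ) * (1 - ζ))) ζ := by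
  have h1 : HasDerivAt uf ((1 * (1 - ζ) - (1 + ζ) * (-1)) / (1 - ζ) ^ 2) ζ :=
    ((hasDerivAt_id ζ).const_add 1).div (by simpa using (hasDerivAt_id ζ).const_sub 1) (one_sub_ne h)
  have h2 := h1.clog (uf_slit h)
  refine h2.congr_deriv ?_
  have h3 := one_sub_ne h
  have h4 : (1 + ζ) ≠ 0 := by
    intro h0
    have : ζ = -1 := by linear_combination h0
    subst this
    simp at h
  unfold uf
  field_simp
  ring

lemma Lf_zero : Lf 0 = 0 := by simp [Lf, uf]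

/-- derivative of the map -/
noncomputable def dQ (ζ : ℂ) : ℂ := (4 / (Real.pi:ℂ)^2) * dslope Lf 0 ζ

lemma mul_dQ (ζ : ℂ) : ζ * dQ ζ = (4 / (Real.pi:ℂ)^2) * Lf ζ := by
  unfold dQ
  have h := sub_smul_dslope Lf 0 ζ
  rw [Lf_zero, sub_zero, sub_zero, smul_eq_mul] at h
  linear_combination (4 / (Real.pi:ℂ)^2) * h

lemma dQ_zero : dQ 0 = 8 / (Real.pi:ℂ)^2 := by
  unfold dQ
  rw [dslope_same, (hasDerivAt_Lf (by simp : (0:ℂ) ∈ ball (0:ℂ) 1)).deriv]
  ring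

lemma diffOn_Lf : DifferentiableOn ℂ Lf (ball 0 1) := fun ζ h =>
  (hasDerivAt_Lf h).differentiableAt.differentiableWithinAt

lemma diffOn_dQ : DifferentiableOn ℂ dQ (ball 0 1) := by
  have h : DifferentiableOn ℂ (dslope Lf 0) (ball 0 1) :=
    (Complex.differentiableOn_dslope (ball_mem_nhds _ one_pos)).2 diffOn_Lf
  exact h.const_mul _

lemma Lf_im {ζ : ℂ} : (Lf ζ).im = Complex.arg (uf ζ) := Complex.log_im _

lemma Lf_im_pos {ζ : ℂ} (h : ζ ∈ ball (0:ℂ) 1) (hi : 0 < ζ.im) : 0 < (Lf ζ).im := by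
  rw [Lf_im]
  have h1 : 0 < (uf ζ).im := by rw [uf_im h]; exact div_pos (by linarith) (nsq_pos h)
  have h2 : 0 ≤ Complex.arg (uf ζ) := Complex.arg_nonneg_iff.2 h1.le
  rcases h2.lt_or_eq with h3 | h3
  · exact h3
  · exfalso
    have := (Complex.arg_eq_zero_iff.1 h3.symm).2
    linarith

lemma Lf_im_neg {ζ : ℂ} (h : ζ ∈ ball (0:ℂ) 1) (hi : ζ.im < 0) : (Lf ζ).im < 0 := by
  rw [Lf_im]
  have h1 : (uf ζ).im < 0 := by rw [uf_im h]; exact div_neg_of_neg_of_pos (by linarith) (nsq_pos h)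
  exact Complex.arg_neg_iff.2 h1

lemma Lf_im_abs {ζ : ℂ} (h : ζ ∈ ball (0:ℂ) 1) : |(Lf ζ).im| ≤ Real.pi / 2 := by
  rw [Lf_im]
  exact (Complex.abs_arg_le_pi_div_two_iff.2 (uf_re_pos h).le)

lemma Lf_re {ζ : ℂ} : (Lf ζ).re = Real.log ‖uf ζ‖ := Complex.log_re _

lemma norm_uf_sq {ζ : ℂ} (h : ζ ∈ ball (0:ℂ) 1) :
    ‖uf ζ‖ ^ 2 = 1 + 4 * ζ.re / Complex.normSq (1 - ζ) := by
  unfold uf
  rw [norm_div, div_pow, Complex.sq_norm, Complex.sq_norm]
  have h3 : Complex.normSq (1 - ζ) ≠ 0 := (nsq_pos h).ne'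
  rw [div_eq_iff h3, add_mul, div_mul_cancel₀ _ h3]
  simp [Complex.normSq_apply]
  ring

lemma Lf_re_pos {ζ : ℂ} (h : ζ ∈ ball (0:ℂ) 1) (hi : 0 < ζ.re) : 0 < (Lf ζ).re := by
  rw [Lf_re]
  apply Real.log_pos
  have h1 := norm_uf_sq h
  have h2 : 0 < 4 * ζ.re / Complex.normSq (1 - ζ) := div_pos (by linarith) (nsq_pos h)
  nlinarith [norm_nonneg (uf ζ)]

lemma Lf_re_neg {ζ : ℂ} (h : ζ ∈ ball (0:ℂ) 1) (hi : ζ.re < 0) : (Lf ζ).re < 0 := by
  rw [Lf_re]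
  have h0 : uf ζ ≠ 0 := fun h0 => by
    have := uf_re_pos h
    rw [h0] at this
    simp at this
  apply Real.log_neg (norm_pos_iff.2 h0)
  have h1 := norm_uf_sq h
  have h2 : 4 * ζ.re / Complex.normSq (1 - ζ) < 0 := div_neg_of_neg_of_pos (by linarith) (nsq_pos h)
  nlinarith [norm_nonneg (uf ζ)]

lemma dQ_re_pos {ζ : ℂ} (h : ζ ∈ ball (0:ℂ) 1) : 0 < (dQ ζ).re := by
  by_cases hz : ζ = 0
  · subst hz
    rw [dQ_zero]
    have : (8 / (Real.pi:ℂ)^2) = ((8 / Real.pi^2 : ℝ) : ℂ) := by push_cast; ring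
    rw [this, Complex.ofReal_re]
    positivity
  · have h1 : dQ ζ = (4 / (Real.pi:ℂ)^2) * (Lf ζ / ζ) := by
      have := mul_dQ ζ
      field_simp
      field_simp at this
      linear_combination this
    have h2 : (4 / (Real.pi:ℂ)^2) = ((4 / Real.pi^2 : ℝ) : ℂ) := by push_cast; ring
    rw [h1, h2, Complex.re_ofReal_mul]
    apply mul_pos (by positivity)
    rw [Complex.div_re, ← add_div]
    apply div_pos _ (Complex.normSq_pos.2 hz)
    have h3 : 0 ≤ (Lf ζ).re * ζ.re := by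
      rcases lt_trichotomy ζ.re 0 with h | h' | h'
      · exact (mul_pos_of_neg_of_neg (Lf_re_neg ‹_› h) h).le
      · rw [h', mul_zero]
      · exact (mul_pos (Lf_re_pos h h') h').le
    have h4 : 0 ≤ (Lf ζ).im * ζ.im := by
      rcases lt_trichotomy ζ.im 0 with h | h' | h'
      · exact (mul_pos_of_neg_of_neg (Lf_im_neg ‹_› h) h).le
      · rw [h', mul_zero]
      · exact (mul_pos (Lf_im_pos h h') h').le
    by_cases hr : ζ.re = 0
    · have hi : ζ.im ≠ 0 := fun hi => hz (Complex.ext hr hi)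
      have h5 : 0 < (Lf ζ).im * ζ.im := by
        rcases lt_or_gt_of_ne hi with h' | h'
        · exact mul_pos_of_neg_of_neg (Lf_im_neg h h') h'
        · exact mul_pos (Lf_im_pos h h') h'
      linarith
    · have h5 : 0 < (Lf ζ).re * ζ.re := by
        rcases lt_or_gt_of_ne hr with h' | h'
        · exact mul_pos_of_neg_of_neg (Lf_re_neg h h') h'
        · exact mul_pos (Lf_re_pos h h') h'
      linarith

lemma conj_ball {ζ : ℂ} (h : ζ ∈ ball (0:ℂ) 1) : starRingEnd ℂ ζ ∈ ball (0:ℂ) 1 := by simpa using h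

lemma neg_ball {ζ : ℂ} (h : ζ ∈ ball (0:ℂ) 1) : -ζ ∈ ball (0:ℂ) 1 := by simpa using h

lemma uf_conj (ζ : ℂ) : uf (starRingEnd ℂ ζ) = starRingEnd ℂ (uf ζ) := by
  unfold uf; simp

lemma Lf_conj {ζ : ℂ} (h : ζ ∈ ball (0:ℂ) 1) : Lf (starRingEnd ℂ ζ) = starRingEnd ℂ (Lf ζ) := by
  unfold Lf
  rw [uf_conj, Complex.log_conj]
  exact Complex.slitPlane_arg_ne_pi (uf_slit h)

lemma Lf_neg {ζ : ℂ} (h : ζ ∈ ball (0:ℂ) 1) : Lf (-ζ) = -Lf ζ := by
  unfold Lf
  have : uf (-ζ) = (uf ζ)⁻¹ := by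
    unfold uf
    rw [inv_div, sub_neg_eq_add]
    rfl
  rw [this, Complex.log_inv]
  exact Complex.slitPlane_arg_ne_pi (uf_slit h)

lemma dQ_conj {ζ : ℂ} (h : ζ ∈ ball (0:ℂ) 1) : dQ (starRingEnd ℂ ζ) = starRingEnd ℂ (dQ ζ) := by
  by_cases hz : ζ = 0
  · subst hz
    rw [map_zero, dQ_zero]
    have h2 : (8 / (Real.pi:ℂ)^2) = ((8 / Real.pi^2 : ℝ) : ℂ) := by push_cast; ring
    rw [h2, Complex.conj_ofReal]
  · have h1 := mul_dQ ζ
    have h2 := mul_dQ (starRingEnd ℂ ζ)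
    rw [Lf_conj h] at h2
    have h3 := congrArg (starRingEnd ℂ) h1
    rw [map_mul, map_mul] at h3
    have h4 : starRingEnd ℂ (4 / (Real.pi:ℂ)^2) = (4 / (Real.pi:ℂ)^2) := by
      have h2 : (4 / (Real.pi:ℂ)^2) = ((4 / Real.pi^2 : ℝ) : ℂ) := by push_cast; ring
      rw [h2, Complex.conj_ofReal]
    rw [h4, ← h2] at h3
    exact (mul_left_cancel₀ ((map_ne_zero _).2 hz) h3).symm

lemma dQ_neg {ζ : ℂ} (h : ζ ∈ ball (0:ℂ) 1) : dQ (-ζ) = dQ ζ := by
  by_cases hz : ζ = 0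
  · subst hz
    rw [neg_zero]
  · have h1 := mul_dQ ζ
    have h2 := mul_dQ (-ζ)
    rw [Lf_neg h] at h2
    have : -ζ * dQ (-ζ) = -ζ * dQ ζ := by linear_combination h2 + h1
    exact mul_left_cancel₀ (neg_ne_zero.2 hz) this

lemma eq_of_deriv {f g f' : ℂ → ℂ} (hf : ∀ ζ ∈ ball (0:ℂ) 1, HasDerivAt f (f' ζ) ζ)
    (hg : ∀ ζ ∈ ball (0:ℂ) 1, HasDerivAt g (f' ζ) ζ) (h0 : f 0 = g 0) {ζ : ℂ} (h : ζ ∈ ball (0:ℂ) 1) :
    f ζ = g ζ := by
  have hs : (0:ℂ) ∈ ball (0:ℂ) 1 := by simp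
  exact (convex_ball (0:ℂ) 1).eqOn_of_fderivWithin_eq (𝕜 := ℂ)
    (fun x hx => (hf x hx).differentiableAt.differentiableWithinAt)
    (fun x hx => (hg x hx).differentiableAt.differentiableWithinAt)
    (isOpen_ball.uniqueDiffOn)
    (fun x hx => by
      rw [(hf x hx).hasFDerivAt.hasFDerivWithinAt.fderivWithin (isOpen_ball.uniqueDiffWithinAt hx),
        (hg x hx).hasFDerivAt.hasFDerivWithinAt.fderivWithin (isOpen_ball.uniqueDiffWithinAt hx)]) hs h0 h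

theorem exists_Q : ∃ Q : ℂ → ℂ, Q 0 = 0 ∧ ∀ ζ ∈ ball (0:ℂ) 1, HasDerivAt Q (dQ ζ) ζ :=
  (diffOn_dQ.isExactOn_ball).with_val_at 0 0

lemma circle_mem {r : ℝ} (h0 : 0 ≤ r) (h1 : r < 1) (t : ℝ) : (r:ℂ) * Complex.exp (t * I) ∈ ball (0:ℂ) 1 := by
  rw [mem_ball_zero_iff, norm_mul, Complex.norm_exp_ofReal_mul_I, mul_one, Complex.norm_real,
    Real.norm_eq_abs, abs_of_nonneg h0]
  exact h1

lemma hasDerivAt_circle {Q Q' : ℂ → ℂ} (der : ∀ ζ ∈ ball (0:ℂ) 1, HasDerivAt Q (Q' ζ) ζ) {r : ℝ} (h0 : 0 ≤ r)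
    (h1 : r < 1) (t : ℝ) : HasDerivAt (fun t : ℝ => Q ((r:ℂ) * Complex.exp (t * I)))
      (I * ((r:ℂ) * Complex.exp (t * I) * Q' ((r:ℂ) * Complex.exp (t * I)))) t := by
  have h2 : HasDerivAt (fun t : ℂ => (r:ℂ) * Complex.exp (t * I)) ((r:ℂ) * (Complex.exp (t * I) * (1 * I))) (t:ℂ) :=
    (((hasDerivAt_id (t:ℂ)).mul_const I).cexp).const_mul _
  have h3 := (der _ (circle_mem h0 h1 t)).comp (t:ℂ) h2
  have h4 := h3.comp_ofReal
  refine h4.congr_deriv ?_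
  ring

lemma hasDerivAt_circle_re {Q Q' : ℂ → ℂ} (der : ∀ ζ ∈ ball (0:ℂ) 1, HasDerivAt Q (Q' ζ) ζ) {r : ℝ} (h0 : 0 ≤ r)
    (h1 : r < 1) (t : ℝ) : HasDerivAt (fun t : ℝ => (Q ((r:ℂ) * Complex.exp (t * I))).re)
      (-(((r:ℂ) * Complex.exp (t * I) * Q' ((r:ℂ) * Complex.exp (t * I))).im)) t := by
  have h := hasDerivAt_circle der h0 h1 t
  have h2 := (Complex.reCLM.hasFDerivAt.comp_hasDerivAt t h)
  refine h2.congr_deriv ?_
  simp [Complex.mul_re, Complex.mul_im]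

lemma Lf_circle_lim {t : ℝ} (ht : t ∈ Ioo 0 Real.pi) :
    Tendsto (fun r : ℝ => (Lf ((r:ℂ) * Complex.exp (t * I))).im) (𝓝[<] 1) (𝓝 (Real.pi / 2)) := by
  have hs : 0 < Real.sin t := Real.sin_pos_of_mem_Ioo ht
  have hc : (1:ℂ) - (1:ℝ) * Complex.exp (t * I) ≠ 0 := by
    intro h
    have := congrArg Complex.im h
    simp [Complex.exp_ofReal_mul_I_im] at this
    linarith
  have hcont : ContinuousAt (fun r : ℝ => uf ((r:ℂ) * Complex.exp (t * I))) 1 := by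
    unfold uf
    apply ContinuousAt.div
    · fun_prop
    · fun_prop
    · exact hc
  have hcos : Real.cos t < 1 := by
    have h1 := Real.sin_sq_add_cos_sq t
    nlinarith [Real.cos_le_one t, sq_nonneg (Real.sin t), sq_nonneg (Real.cos t - 1)]
  have hval : uf (((1:ℝ):ℂ) * Complex.exp (t * I)) = ((Real.sin t / (1 - Real.cos t) : ℝ) : ℂ) * I := by
    unfold uf
    rw [div_eq_iff hc]
    have h1 := Real.sin_sq_add_cos_sq t
    have h2 : (1 - Real.cos t) ≠ 0 := by linarith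
    apply Complex.ext
    · simp only [Complex.add_re, Complex.mul_re, Complex.sub_re, Complex.sub_im, Complex.one_re, Complex.one_im,
        Complex.ofReal_re, Complex.ofReal_im, Complex.I_re, Complex.I_im, Complex.exp_ofReal_mul_I_re,
        Complex.exp_ofReal_mul_I_im, Complex.mul_im]
      field_simp
      nlinarith
    · simp only [Complex.add_im, Complex.mul_re, Complex.sub_re, Complex.sub_im, Complex.one_re, Complex.one_im,
        Complex.ofReal_re, Complex.ofReal_im, Complex.I_re, Complex.I_im, Complex.exp_ofReal_mul_I_re,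
        Complex.exp_ofReal_mul_I_im, Complex.mul_im]
      field_simp
      ring
  have hpos : 0 < Real.sin t / (1 - Real.cos t) := div_pos hs (by linarith)
  have harg : Complex.arg (uf (((1:ℝ):ℂ) * Complex.exp (t * I))) = Real.pi / 2 := by
    rw [hval, Complex.arg_real_mul _ hpos, Complex.arg_I]
  have hsl : uf (((1:ℝ):ℂ) * Complex.exp (t * I)) ∈ slitPlane := by
    rw [hval]
    right
    rw [Complex.im_ofReal_mul, Complex.I_im, mul_one]
    exact hpos.ne'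
  have h3 : ContinuousAt (fun r : ℝ => Complex.arg (uf ((r:ℂ) * Complex.exp (t * I)))) 1 :=
    ContinuousAt.comp (f := fun r : ℝ => uf ((r:ℂ) * Complex.exp (t * I))) (g := Complex.arg)
      (Complex.continuousAt_arg hsl) hcont
  have h4 := h3.tendsto
  simp only [harg] at h4
  simp only [Lf_im]
  exact h4.mono_left nhdsWithin_le_nhds

lemma mul_dQ_im (ζ : ℂ) : (ζ * dQ ζ).im = (4 / Real.pi ^ 2) * (Lf ζ).im := by
  rw [mul_dQ]
  have h2 : (4 / (Real.pi:ℂ)^2) = ((4 / Real.pi^2 : ℝ) : ℂ) := by push_cast; ring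
  rw [h2, Complex.im_ofReal_mul]

lemma lim_Q {Q : ℂ → ℂ} (h0 : Q 0 = 0) (der : ∀ ζ ∈ ball (0:ℂ) 1, HasDerivAt Q (dQ ζ) ζ)
    (hodd : ∀ ζ ∈ ball (0:ℂ) 1, Q (-ζ) = -Q ζ) : Tendsto (fun r : ℝ => (Q r).re) (𝓝[<] 1) (𝓝 1) := by
  have hint : ∀ r ∈ Ico (0:ℝ) 1, (Q r).re = (1/2) * ∫ t in (0:ℝ)..Real.pi,
      (4 / Real.pi ^ 2) * (Lf ((r:ℂ) * Complex.exp (t * I))).im := by
    intro r hr
    have h1 : ∀ t ∈ uIcc (0:ℝ) Real.pi, HasDerivAt (fun t : ℝ => -(Q ((r:ℂ) * Complex.exp (t * I))).re)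
        ((4 / Real.pi ^ 2) * (Lf ((r:ℂ) * Complex.exp (t * I))).im) t := by
      intro t _
      have := (hasDerivAt_circle_re der hr.1 hr.2 t).neg
      refine this.congr_deriv ?_
      rw [neg_neg, mul_dQ_im]
    have hcont : Continuous (fun t : ℝ => (4 / Real.pi ^ 2) * (Lf ((r:ℂ) * Complex.exp (t * I))).im) := by
      apply Continuous.mul continuous_const
      apply Complex.continuous_im.comp
      refine continuous_iff_continuousAt.2 fun t => ?_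
      exact ContinuousAt.comp (f := fun t : ℝ => (r:ℂ) * Complex.exp (t * I)) (g := Lf)
        (hasDerivAt_Lf (circle_mem hr.1 hr.2 t)).continuousAt (by fun_prop)
    rw [intervalIntegral.integral_eq_sub_of_hasDerivAt h1 (hcont.intervalIntegrable _ _)]
    have h2 : (r:ℂ) * Complex.exp ((Real.pi:ℝ) * I) = -(r:ℂ) := by
      rw [Complex.exp_pi_mul_I]; ring
    have h3 : (r:ℂ) ∈ ball (0:ℂ) 1 := by
      have := circle_mem hr.1 hr.2 0
      simpa using this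
    rw [h2, hodd _ h3]
    simp
    ring
  have hlim : Tendsto (fun r : ℝ => (1/2) * ∫ t in (0:ℝ)..Real.pi,
      (4 / Real.pi ^ 2) * (Lf ((r:ℂ) * Complex.exp (t * I))).im) (𝓝[<] 1)
      (𝓝 ((1/2) * ∫ t in (0:ℝ)..Real.pi, (4 / Real.pi ^ 2) * (Real.pi / 2))) := by
    apply Tendsto.const_mul
    apply intervalIntegral.tendsto_integral_filter_of_dominated_convergence
      (fun _ => (4 / Real.pi ^ 2) * (Real.pi / 2))
    · filter_upwards [Ioo_mem_nhdsLT (show (0:ℝ) < 1 by norm_num)] with r hr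
      apply Continuous.aestronglyMeasurable
      apply Continuous.mul continuous_const
      apply Complex.continuous_im.comp
      refine continuous_iff_continuousAt.2 fun t => ?_
      exact ContinuousAt.comp (f := fun t : ℝ => (r:ℂ) * Complex.exp (t * I)) (g := Lf)
        (hasDerivAt_Lf (circle_mem hr.1.le hr.2 t)).continuousAt (by fun_prop)
    · filter_upwards [Ioo_mem_nhdsLT (show (0:ℝ) < 1 by norm_num)] with r hr
      refine Eventually.of_forall fun t _ => ?_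
      rw [norm_mul, Real.norm_eq_abs, Real.norm_eq_abs, abs_of_pos (by positivity)]
      exact mul_le_mul_of_nonneg_left (Lf_im_abs (circle_mem hr.1.le hr.2 t)) (by positivity)
    · exact intervalIntegrable_const
    · have : ∀ᵐ t : ℝ, t ≠ Real.pi := by simp [ae_iff]
      filter_upwards [this] with t ht hmem
      rw [uIoc_of_le Real.pi_pos.le] at hmem
      exact (Lf_circle_lim ⟨hmem.1, lt_of_le_of_ne hmem.2 ht⟩).const_mul _
  have hv : (1/2) * ∫ t in (0:ℝ)..Real.pi, (4 / Real.pi ^ 2) * (Real.pi / 2) = 1 := by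
    rw [intervalIntegral.integral_const]
    have := Real.pi_pos.ne'
    simp only [smul_eq_mul, sub_zero]
    field_simp
    norm_num
  rw [hv] at hlim
  refine hlim.congr' ?_
  filter_upwards [Ioo_mem_nhdsLT (show (0:ℝ) < 1 by norm_num)] with r hr
  exact (hint r ⟨hr.1.le, hr.2⟩).symm

theorem exists_QMap : Nonempty QMap := by
  obtain ⟨Q, h0, der⟩ := exists_Q
  have hodd : ∀ ζ ∈ ball (0:ℂ) 1, Q (-ζ) = -Q ζ := by
    intro ζ h
    have hd : ∀ ζ ∈ ball (0:ℂ) 1, HasDerivAt (fun ζ => -Q (-ζ)) (dQ ζ) ζ := by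
      intro ζ h
      have h1 := (der _ (neg_ball h)).comp ζ (hasDerivAt_neg ζ)
      refine h1.neg.congr_deriv ?_
      rw [dQ_neg h]
      ring
    have := eq_of_deriv hd der (by simp [h0]) h
    rw [← this, neg_neg]
  have hconj : ∀ ζ ∈ ball (0:ℂ) 1, Q (starRingEnd ℂ ζ) = starRingEnd ℂ (Q ζ) := by
    intro ζ h
    have hd : ∀ ζ ∈ ball (0:ℂ) 1, HasDerivAt (fun ζ => starRingEnd ℂ (Q (starRingEnd ℂ ζ))) (dQ ζ) ζ := by
      intro ζ h
      have h1 := (der _ (conj_ball h)).conj_conj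
      rw [Complex.conj_conj] at h1
      refine h1.congr_deriv ?_
      rw [dQ_conj h, Complex.conj_conj]
    have := eq_of_deriv hd der (by simp [h0]) h
    rw [← this, Complex.conj_conj]
  exact ⟨{
    Q := Q
    Q' := dQ
    der := der
    zero := h0
    re_pos := fun ζ h => dQ_re_pos h
    im_pos := fun ζ h hi => by
      rw [mul_dQ_im]
      exact mul_pos (by positivity) (Lf_im_pos h hi)
    im_le := fun ζ h => by
      rw [mul_dQ_im]
      have h1 := (abs_le.1 (Lf_im_abs h)).2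
      calc (4 / Real.pi ^ 2) * (Lf ζ).im ≤ (4 / Real.pi ^ 2) * (Real.pi / 2) :=
            mul_le_mul_of_nonneg_left h1 (by positivity)
        _ = 2 / Real.pi := by
            have := Real.pi_pos.ne'
            field_simp
            norm_num
    conj' := hconj
    odd := hodd
    lim := lim_Q h0 der hodd }⟩

end Pool.Agent.H412R2.MA
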